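import Pool.Agent.H13.W.W8

/-!
# Module M5
-/

namespace Pool.Agent.H13.Tf

theorem m5 : Pool.Agent.H24.Tf.S_M5 := Pool.Agent.H13.W.m5

end Pool.Agent.H13.Tf
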